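import Pool.Agent.Helper61.Tri.Goals

/-!
# Triangle removal
-/

set_option autoImplicit false

open Finset

namespace Pool.Agent.Helper45.Tri

open Pool.Agent.Helper61.Tri

open scoped Classical in
theorem oe_card {V : Type} [Fintype V] (G : SimpleGraph V) :
    (oe G).card = 2 * Nat.card G.edgeSet := by
  have h1 : (oe G).card = ∑ v, G.degree v := by
    unfold oe
    rw [Finset.card_filter, Fintype.sum_prod_type]
    refine Finset.sum_congr rfl fun v _ => ?_
    rw [← SimpleGraph.card_neighborFinset_eq_degree, SimpleGraph.neighborFinset_eq_filter,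
      Finset.card_filter]
  rw [h1, SimpleGraph.sum_degrees_eq_twice_card_edges, Nat.card_eq_fintype_card,
    SimpleGraph.edgeFinset_card]

open scoped Classical in
theorem clique_card {V : Type} [Fintype V] (G : SimpleGraph V) :
    (G.cliqueFinset 3).card ≤ (ot G).card := by
  refine Finset.card_le_card_of_surjOn (fun p : V × V × V => ({p.1, p.2.1, p.2.2} : Finset V)) ?_
  intro s hs
  rw [Finset.mem_coe, SimpleGraph.mem_cliqueFinset_iff, SimpleGraph.is3Clique_iff] at hs
  obtain ⟨a, b, c, hab, hac, hbc, rfl⟩ := hs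
  refine ⟨(a, b, c), ?_, rfl⟩
  rw [Finset.mem_coe]
  unfold ot
  rw [Finset.mem_filter]
  exact ⟨Finset.mem_univ _, hab, hac, hbc⟩

open scoped Classical in
theorem removal : Removal := by
  intro C ε hε
  have hb : 0 < SimpleGraph.triangleRemovalBound (ε / 2) :=
    SimpleGraph.triangleRemovalBound_pos (by positivity)
  set b := SimpleGraph.triangleRemovalBound (ε / 2) with hbdef
  obtain ⟨n1, hn1⟩ := exists_nat_gt (C / b)
  refine ⟨n1 + 1, fun V _ hV L hL => ?_⟩
  have hn : (n1 : ℝ) + 1 ≤ (Fintype.card V : ℝ) := by exact_mod_cast hV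
  have hn0 : (0 : ℝ) < (Fintype.card V : ℝ) := by
    have : (0 : ℝ) ≤ (n1 : ℝ) := Nat.cast_nonneg _
    linarith
  have h1 : C < b * (Fintype.card V : ℝ) := by
    rw [div_lt_iff₀ hb] at hn1
    nlinarith
  have h2 : ((L.cliqueFinset 3).card : ℝ) < b * (Fintype.card V : ℝ) ^ 3 := by
    have h3 : ((L.cliqueFinset 3).card : ℝ) ≤ ((ot L).card : ℝ) := by
      exact_mod_cast clique_card L
    have h4 : C * (Fintype.card V : ℝ) ^ 2 < b * (Fintype.card V : ℝ) * (Fintype.card V : ℝ) ^ 2 :=
      mul_lt_mul_of_pos_right h1 (by positivity)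
    calc ((L.cliqueFinset 3).card : ℝ) ≤ ((ot L).card : ℝ) := h3
      _ ≤ C * (Fintype.card V : ℝ) ^ 2 := hL
      _ < b * (Fintype.card V : ℝ) * (Fintype.card V : ℝ) ^ 2 := h4
      _ = b * (Fintype.card V : ℝ) ^ 3 := by ring
  obtain ⟨J, hJ, hdec, hlt, hfree⟩ := SimpleGraph.triangle_removal h2
  refine ⟨J, hJ, ?_, ?_⟩
  · intro u v w huv huw hvw
    exact hfree {u, v, w} (SimpleGraph.is3Clique_triple_iff.2 ⟨huv, huw, hvw⟩)
  · rw [oe_card, oe_card]
    rw [SimpleGraph.edgeFinset_card, SimpleGraph.edgeFinset_card, ← Nat.card_eq_fintype_card,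
      ← Nat.card_eq_fintype_card] at hlt
    push_cast at hlt ⊢
    linarith

end Pool.Agent.Helper45.Tri
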